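import Mathlib
import Pool.Agent.W388.TW.D0

set_option autoImplicit false

open Complex Filter Topology Set MeasureTheory UpperHalfPlane
open scoped ENNReal

namespace Pool.Agent.W749.TW

/-- telescoping bound for `∑ 1 / (i + M)²` -/
theorem sum_sq (M : ℕ) (hM : 1 ≤ M) (n : ℕ) :
    ∑ i ∈ Finset.range n, 1 / ((i : ℝ) + M) ^ 2 ≤ 2 / M - 2 / ((M : ℝ) + n) := by
  have hM' : (1:ℝ) ≤ M := by exact_mod_cast hM
  induction n with
  | zero => simp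
  | succ n ih =>
    rw [Finset.sum_range_succ]
    have hn : (0:ℝ) ≤ n := by positivity
    have h : 1 / ((n : ℝ) + M) ^ 2 ≤ 2 / ((M : ℝ) + n) - 2 / ((M : ℝ) + (n + 1 : ℕ)) := by
      push_cast
      rw [← sub_nonneg]
      have e : 2 / ((M : ℝ) + n) - 2 / ((M : ℝ) + (n + 1)) - 1 / ((n : ℝ) + M) ^ 2 =
          ((M : ℝ) + n - 1) / (((M : ℝ) + n) ^ 2 * ((M : ℝ) + (n + 1))) := by
        field_simp
        ring
      rw [e]
      apply div_nonneg (by linarith) (by positivity)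
    linarith

theorem tsum_sq_nat (M : ℕ) (hM : 1 ≤ M) :
    ∑' i : ℕ, ENNReal.ofReal (1 / ((i : ℝ) + M) ^ 2) ≤ ENNReal.ofReal (2 / M) := by
  apply ENNReal.tsum_le_of_sum_range_le
  intro n
  rw [← ENNReal.ofReal_sum_of_nonneg (fun i _ => by positivity)]
  apply ENNReal.ofReal_le_ofReal
  have := sum_sq M hM n
  have h2 : 0 ≤ 2 / ((M : ℝ) + n) := by positivity
  linarith

theorem tsum_int_le {f : ℤ → ℝ≥0∞} {g : ℕ → ℝ≥0∞} (h : ∀ n : ℤ, f n ≤ g n.natAbs) :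
    ∑' n : ℤ, f n ≤ 2 * ∑' n : ℕ, g n := by
  have h1 : HasSum (fun n : ℕ => f n) (∑' n : ℕ, f n) := ENNReal.summable.hasSum
  have h2 : HasSum (fun n : ℕ => f (-((n : ℤ) + 1))) (∑' n : ℕ, f (-((n : ℤ) + 1))) :=
    ENNReal.summable.hasSum
  rw [(HasSum.of_nat_of_neg_add_one h1 h2).tsum_eq, two_mul]
  apply add_le_add
  · exact ENNReal.tsum_le_tsum fun n => by simpa using h n
  · calc ∑' n : ℕ, f (-((n : ℤ) + 1)) ≤ ∑' n : ℕ, g (n + 1) := by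
          refine ENNReal.tsum_le_tsum fun n => ?_
          have := h (-((n : ℤ) + 1))
          have e : (-((n : ℤ) + 1)).natAbs = n + 1 := by omega
          rwa [e] at this
      _ ≤ ∑' n : ℕ, g n :=
          ENNReal.tsum_comp_le_tsum_of_injective (f := fun n : ℕ => n + 1)
            (fun a b h => by simpa using h) g

theorem tsum_sq_int (M : ℕ) (hM : 1 ≤ M) :
    ∑' d : ℤ, ENNReal.ofReal (1 / (|(d : ℝ)| + M) ^ 2) ≤ ENNReal.ofReal (4 / M) := by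
  have h := tsum_int_le (f := fun d : ℤ => ENNReal.ofReal (1 / (|(d : ℝ)| + M) ^ 2))
    (g := fun i : ℕ => ENNReal.ofReal (1 / ((i : ℝ) + M) ^ 2)) (fun n => by
      apply le_of_eq
      rw [Nat.cast_natAbs, Int.cast_abs])
  refine h.trans ?_
  calc 2 * ∑' i : ℕ, ENNReal.ofReal (1 / ((i : ℝ) + M) ^ 2) ≤ 2 * ENNReal.ofReal (2 / M) := by
        gcongr
        exact tsum_sq_nat M hM
    _ = ENNReal.ofReal (4 / M) := by
        rw [show (2 : ℝ≥0∞) = ENNReal.ofReal 2 by simp, ← ENNReal.ofReal_mul (by norm_num)]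
        congr 1
        ring

/-- Bound for `∑_d 1 / (d² + m²)`. -/
theorem tsum_quad {m : ℝ} (hm : Real.sqrt 3 / 2 ≤ m) :
    ∑' d : ℤ, ENNReal.ofReal (1 / ((d : ℝ) ^ 2 + m ^ 2)) ≤ ENNReal.ofReal (40 / m) := by
  have h3 : (1.7 : ℝ) ≤ Real.sqrt 3 := by
    apply Real.le_sqrt_of_sq_le
    norm_num
  have hm0 : (0.85 : ℝ) ≤ m := by linarith
  set M : ℕ := ⌈m⌉₊ with hMdef
  have hM1 : 1 ≤ M := Nat.one_le_ceil_iff.mpr (by linarith)
  have hMm : m ≤ M := Nat.le_ceil m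
  have hMm' : (M : ℝ) < m + 1 := Nat.ceil_lt_add_one (by linarith)
  have hM2 : (M : ℝ) ≤ 2.2 * m := by linarith
  have h : ∀ d : ℤ, ENNReal.ofReal (1 / ((d : ℝ) ^ 2 + m ^ 2)) ≤
      ENNReal.ofReal 10 * ENNReal.ofReal (1 / (|(d : ℝ)| + M) ^ 2) := by
    intro d
    rw [← ENNReal.ofReal_mul (by norm_num)]
    apply ENNReal.ofReal_le_ofReal
    rw [mul_one_div, div_le_div_iff₀ (by positivity) (by positivity)]
    have e : |(d : ℝ)| ^ 2 = (d : ℝ) ^ 2 := sq_abs _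
    have h1 : (M : ℝ) ^ 2 ≤ 4.84 * m ^ 2 := by nlinarith
    nlinarith [sq_nonneg (|(d : ℝ)| - M)]
  calc ∑' d : ℤ, ENNReal.ofReal (1 / ((d : ℝ) ^ 2 + m ^ 2))
      ≤ ∑' d : ℤ, ENNReal.ofReal 10 * ENNReal.ofReal (1 / (|(d : ℝ)| + M) ^ 2) :=
        ENNReal.tsum_le_tsum h
    _ = ENNReal.ofReal 10 * ∑' d : ℤ, ENNReal.ofReal (1 / (|(d : ℝ)| + M) ^ 2) :=
        ENNReal.tsum_mul_left
    _ ≤ ENNReal.ofReal 10 * ENNReal.ofReal (4 / M) := by
        gcongr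
        exact tsum_sq_int M hM1
    _ ≤ ENNReal.ofReal (40 / m) := by
        rw [← ENNReal.ofReal_mul (by norm_num)]
        apply ENNReal.ofReal_le_ofReal
        rw [← mul_div_assoc]
        norm_num
        gcongr

/-- `(c + 1)^(-(1+s)) ≤ (c^(-s) - (c+1)^(-s)) / s` -/
theorem rpow_tel {s : ℝ} (hs : 0 < s) {c : ℝ} (hc : 0 < c) :
    (c + 1) ^ (-(1 + s)) ≤ (1 / s) * (c ^ (-s) - (c + 1) ^ (-s)) := by
  have h1 : c ^ (-s) = (c + 1) ^ (-s) * (c / (c + 1)) ^ (-s) := by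
    rw [← Real.mul_rpow (by positivity) (by positivity)]
    congr 1
    field_simp
  have h2 : 1 + s / (c + 1) ≤ (c / (c + 1)) ^ (-s) := by
    rw [Real.rpow_def_of_pos (by positivity)]
    have h3 : Real.log (c / (c + 1)) ≤ c / (c + 1) - 1 := Real.log_le_sub_one_of_pos (by positivity)
    have h4 : c / (c + 1) - 1 = -(1 / (c + 1)) := by field_simp; ring
    rw [h4] at h3
    have h5 : s / (c + 1) ≤ Real.log (c / (c + 1)) * -s := by
      have : s / (c + 1) = (1 / (c + 1)) * s := by ring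
      rw [this]
      nlinarith
    have h6 := Real.add_one_le_exp (Real.log (c / (c + 1)) * -s)
    linarith
  have h3 : (c + 1) ^ (-(1 + s)) = (c + 1) ^ (-s) * (1 / (c + 1)) := by
    rw [show -(1 + s) = -s + -1 by ring, Real.rpow_add (by positivity), Real.rpow_neg_one]
    ring
  rw [h3, h1]
  have h4 : 0 < (c + 1) ^ (-s) := by positivity
  have h5 : (1 / s) * ((c + 1) ^ (-s) * (c / (c + 1)) ^ (-s) - (c + 1) ^ (-s)) =
      (c + 1) ^ (-s) * ((1 / s) * ((c / (c + 1)) ^ (-s) - 1)) := by ring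
  rw [h5]
  apply mul_le_mul_of_nonneg_left _ h4.le
  have h6 : (1 / s) * (s / (c + 1)) ≤ (1 / s) * ((c / (c + 1)) ^ (-s) - 1) := by
    apply mul_le_mul_of_nonneg_left _ (by positivity)
    linarith
  refine le_trans (le_of_eq ?_) h6
  field_simp

theorem sum_zeta {s : ℝ} (hs : 0 < s) (n : ℕ) :
    ∑ i ∈ Finset.range (n + 1), ((i : ℝ) + 1) ^ (-(1 + s)) ≤
      1 + 1 / s - (1 / s) * ((n : ℝ) + 1) ^ (-s) := by
  induction n with
  | zero => simp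
  | succ n ih =>
    rw [Finset.sum_range_succ]
    have h := rpow_tel hs (c := (n : ℝ) + 1) (by positivity)
    push_cast
    linarith

theorem tsum_zeta {s : ℝ} (hs : 0 < s) :
    ∑' i : ℕ, ENNReal.ofReal (((i : ℝ) + 1) ^ (-(1 + s))) ≤ ENNReal.ofReal (1 + 1 / s) := by
  apply ENNReal.tsum_le_of_sum_range_le
  intro n
  have h1 : ∑ i ∈ Finset.range n, ENNReal.ofReal (((i : ℝ) + 1) ^ (-(1 + s))) ≤
      ∑ i ∈ Finset.range (n + 1), ENNReal.ofReal (((i : ℝ) + 1) ^ (-(1 + s))) := by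
    rw [Finset.sum_range_succ]
    exact le_self_add
  refine h1.trans ?_
  rw [← ENNReal.ofReal_sum_of_nonneg (fun i _ => by positivity)]
  apply ENNReal.ofReal_le_ofReal
  have := sum_zeta hs n
  have h2 : 0 ≤ (1 / s) * ((n : ℝ) + 1) ^ (-s) := by positivity
  linarith

/-- the lower bound for `|cz+d|²` -/
theorem norm_lower (z : ℍ) (hy : Real.sqrt 3 / 2 ≤ z.im) (hx : |z.re| ≤ 1 / 2) (c d : ℤ) :
    (1 / 4) * ((d : ℝ) ^ 2 + (|(c : ℝ)| * z.im) ^ 2) ≤ ‖(c : ℂ) * (z : ℂ) + (d : ℂ)‖ ^ 2 := by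
  have h3 : (1.7 : ℝ) ≤ Real.sqrt 3 := by
    apply Real.le_sqrt_of_sq_le
    norm_num
  have hy' : (0.85 : ℝ) ≤ z.im := by linarith
  have e : ‖(c : ℂ) * (z : ℂ) + (d : ℂ)‖ ^ 2 =
      ((c : ℝ) * z.re + d) ^ 2 + ((c : ℝ) * z.im) ^ 2 := by
    rw [← Complex.normSq_eq_norm_sq, Complex.normSq_apply]
    simp
    ring
  rw [e, mul_pow, sq_abs, mul_pow]
  have hx2 : z.re ^ 2 ≤ 1 / 4 := by
    have := abs_le.mp hx
    nlinarith [this.1, this.2]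
  have hyy : (0.72 : ℝ) ≤ z.im ^ 2 := by nlinarith
  have hc2 : 0 ≤ (c : ℝ) ^ 2 := sq_nonneg _
  have hcy : 0.72 * (c : ℝ) ^ 2 ≤ (c : ℝ) ^ 2 * z.im ^ 2 := by nlinarith
  -- `(cx + d)² ≥ d²/2 - c²x²`
  have h1 : (d : ℝ) ^ 2 / 2 - (c : ℝ) ^ 2 * z.re ^ 2 ≤ ((c : ℝ) * z.re + d) ^ 2 := by
    nlinarith [sq_nonneg (2 * (c : ℝ) * z.re + d)]
  have h2 : (c : ℝ) ^ 2 * z.re ^ 2 ≤ (c : ℝ) ^ 2 * (1 / 4) := by gcongr
  have h3 : 0 ≤ (d : ℝ) ^ 2 := sq_nonneg _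
  nlinarith

theorem term_le (z : ℍ) (hy : Real.sqrt 3 / 2 ≤ z.im) (hx : |z.re| ≤ 1 / 2) {σ : ℝ} (hσ : 0 < σ)
    (c d : ℤ) (h : c ≠ 0 ∨ d ≠ 0) :
    (z.im / ‖(c : ℂ) * (z : ℂ) + (d : ℂ)‖ ^ 2) ^ (1 + σ) ≤
      (4 * z.im / ((d : ℝ) ^ 2 + (|(c : ℝ)| * z.im) ^ 2)) ^ (1 + σ) := by
  have h1 := norm_lower z hy hx c d
  have hz : 0 < z.im := z.im_pos
  have hpos : 0 < (d : ℝ) ^ 2 + (|(c : ℝ)| * z.im) ^ 2 := by
    rcases h with h | h
    · have : 0 < |(c : ℝ)| := abs_pos.mpr (by exact_mod_cast h)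
      positivity
    · have : (d : ℝ) ≠ 0 := by exact_mod_cast h
      positivity
  apply Real.rpow_le_rpow (by positivity) _ (by linarith)
  rw [div_le_div_iff₀ (by linarith) hpos]
  nlinarith

/-- the majorant -/
noncomputable def F (y σ : ℝ) (p : ℤ × ℤ) : ℝ≥0∞ :=
  if p.1 = 0 ∧ p.2 = 0 then 0 else
    ENNReal.ofReal ((4 * y / ((p.2 : ℝ) ^ 2 + (|(p.1 : ℝ)| * y) ^ 2)) ^ (1 + σ))

theorem rpow_bd {y σ : ℝ} (hy : (0.85 : ℝ) ≤ y) (h1 : σ ≤ 1) :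
    (4 * y) ^ (1 + σ) ≤ 16 * y ^ 2 := by
  have h := Real.rpow_le_rpow_of_exponent_le (x := 4 * y) (by linarith) (show 1 + σ ≤ 2 by linarith)
  have e : (4 * y) ^ (2 : ℝ) = 16 * y ^ 2 := by
    rw [Real.rpow_two]
    ring
  rw [e] at h
  exact h

theorem F_zero {y σ : ℝ} (hy : (0.85 : ℝ) ≤ y) (h0 : 0 < σ) (h1 : σ ≤ 1) (d : ℤ) :
    F y σ (0, d) ≤ ENNReal.ofReal (32 * y ^ 2) * ENNReal.ofReal (1 / ((d : ℝ) ^ 2 + 1 ^ 2)) := by
  unfold F
  split_ifs with h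
  · exact zero_le
  · have hd : d ≠ 0 := by simpa using h
    have hd1 : (1 : ℝ) ≤ (d : ℝ) ^ 2 := by
      have h2 : (1 : ℤ) ≤ |d| := Int.one_le_abs hd
      have h3 : (1 : ℝ) ≤ |(d : ℝ)| := by exact_mod_cast h2
      rw [← sq_abs]
      nlinarith
    rw [← ENNReal.ofReal_mul (by positivity)]
    apply ENNReal.ofReal_le_ofReal
    have h2 := rpow_bd hy h1
    have e : (d : ℝ) ^ 2 + (|((0 : ℤ) : ℝ)| * y) ^ 2 = (d : ℝ) ^ 2 := by simp
    simp only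
    rw [e, Real.div_rpow (by linarith) (by positivity)]
    have h3 : (d : ℝ) ^ 2 ≤ ((d : ℝ) ^ 2) ^ (1 + σ) := by
      have := Real.rpow_le_rpow_of_exponent_le (x := (d : ℝ) ^ 2) hd1 (show 1 ≤ 1 + σ by linarith)
      rwa [Real.rpow_one] at this
    have h4 : 0 < (4 * y) ^ (1 + σ) := by positivity
    calc (4 * y) ^ (1 + σ) / ((d : ℝ) ^ 2) ^ (1 + σ) ≤ (16 * y ^ 2) / (d : ℝ) ^ 2 := by
          gcongr
      _ ≤ 32 * y ^ 2 * (1 / ((d : ℝ) ^ 2 + 1 ^ 2)) := by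
          rw [mul_one_div, div_le_div_iff₀ (by positivity) (by positivity)]
          have : 0 < y ^ 2 := by positivity
          nlinarith

theorem F_zero_sum {y σ : ℝ} (hy : (0.85 : ℝ) ≤ y) (h0 : 0 < σ) (h1 : σ ≤ 1) :
    ∑' d : ℤ, F y σ (0, d) ≤ ENNReal.ofReal (1280 * y ^ 2) := by
  have hs : Real.sqrt 3 / 2 ≤ 1 := by
    have : Real.sqrt 3 ≤ 2 := by
      rw [Real.sqrt_le_left (by norm_num)]
      norm_num
    linarith
  calc ∑' d : ℤ, F y σ (0, d)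
      ≤ ∑' d : ℤ, ENNReal.ofReal (32 * y ^ 2) * ENNReal.ofReal (1 / ((d : ℝ) ^ 2 + 1 ^ 2)) :=
        ENNReal.tsum_le_tsum fun d => F_zero hy h0 h1 d
    _ = ENNReal.ofReal (32 * y ^ 2) * ∑' d : ℤ, ENNReal.ofReal (1 / ((d : ℝ) ^ 2 + 1 ^ 2)) :=
        ENNReal.tsum_mul_left
    _ ≤ ENNReal.ofReal (32 * y ^ 2) * ENNReal.ofReal (40 / 1) := by
        gcongr
        exact tsum_quad hs
    _ = ENNReal.ofReal (1280 * y ^ 2) := by
        rw [← ENNReal.ofReal_mul (by positivity)]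
        congr 1
        ring

theorem F_ne {y σ : ℝ} (hy : (0.85 : ℝ) ≤ y) (h0 : 0 < σ) (h1 : σ ≤ 1) (c d : ℤ) (hc : c ≠ 0) :
    F y σ (c, d) ≤ ENNReal.ofReal ((16 * y ^ 2) * (10 / 7 * |(c : ℝ)| ^ (-(2 * σ)))) *
      ENNReal.ofReal (1 / ((d : ℝ) ^ 2 + (|(c : ℝ)| * y) ^ 2)) := by
  unfold F
  rw [if_neg (by simp [hc])]
  have hc1 : (1 : ℝ) ≤ |(c : ℝ)| := by
    have := Int.one_le_abs hc
    exact_mod_cast this
  rw [← ENNReal.ofReal_mul (by positivity)]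
  apply ENNReal.ofReal_le_ofReal
  simp only
  have h2 := rpow_bd hy h1
  set m : ℝ := |(c : ℝ)| * y with hm
  have hm0 : 0 < m := by positivity
  have hq : 0 < (d : ℝ) ^ 2 + m ^ 2 := by positivity
  rw [Real.div_rpow (by linarith) hq.le, Real.rpow_add hq, Real.rpow_one]
  have h3 : (m ^ 2) ^ σ ≤ ((d : ℝ) ^ 2 + m ^ 2) ^ σ :=
    Real.rpow_le_rpow (by positivity) (by nlinarith [sq_nonneg (d : ℝ)]) h0.le
  have h4 : (7 / 10) * |(c : ℝ)| ^ (2 * σ) ≤ (m ^ 2) ^ σ := by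
    rw [hm, mul_pow, Real.mul_rpow (by positivity) (by positivity)]
    have e1 : (|(c : ℝ)| ^ 2) ^ σ = |(c : ℝ)| ^ (2 * σ) := by
      rw [← Real.rpow_natCast, ← Real.rpow_mul (by positivity)]
      norm_num
    rw [e1, mul_comm]
    have h5 : (7 / 10 : ℝ) ≤ (y ^ 2) ^ σ := by
      by_cases hy2 : 1 ≤ y ^ 2
      · have := Real.one_le_rpow hy2 h0.le
        linarith
      · push Not at hy2
        have h6 := Real.rpow_le_rpow_of_exponent_ge (x := y ^ 2) (by positivity) hy2.le h1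
        rw [Real.rpow_one] at h6
        nlinarith
    gcongr
  have h6 : 0 < |(c : ℝ)| ^ (2 * σ) := by positivity
  have h7 : 0 < (4 * y) ^ (1 + σ) := by positivity
  calc (4 * y) ^ (1 + σ) / (((d : ℝ) ^ 2 + m ^ 2) * ((d : ℝ) ^ 2 + m ^ 2) ^ σ)
      ≤ (16 * y ^ 2) / (((d : ℝ) ^ 2 + m ^ 2) * ((7 / 10) * |(c : ℝ)| ^ (2 * σ))) := by
        gcongr
        exact h4.trans h3
    _ = 16 * y ^ 2 * (10 / 7 * |(c : ℝ)| ^ (-(2 * σ))) * (1 / ((d : ℝ) ^ 2 + m ^ 2)) := by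
        rw [Real.rpow_neg (by positivity)]
        field_simp

theorem F_ne_sum {y σ : ℝ} (hy : Real.sqrt 3 / 2 ≤ y) (h0 : 0 < σ) (h1 : σ ≤ 1) (c : ℤ)
    (hc : c ≠ 0) :
    ∑' d : ℤ, F y σ (c, d) ≤ ENNReal.ofReal (1200 * y ^ 2) *
      ENNReal.ofReal (|(c : ℝ)| ^ (-(1 + 2 * σ))) := by
  have h3 : (1.7 : ℝ) ≤ Real.sqrt 3 := by
    apply Real.le_sqrt_of_sq_le
    norm_num
  have hy' : (0.85 : ℝ) ≤ y := by linarith
  have hc1 : (1 : ℝ) ≤ |(c : ℝ)| := by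
    have := Int.one_le_abs hc
    exact_mod_cast this
  have hm : Real.sqrt 3 / 2 ≤ |(c : ℝ)| * y := by nlinarith
  calc ∑' d : ℤ, F y σ (c, d)
      ≤ ∑' d : ℤ, ENNReal.ofReal ((16 * y ^ 2) * (10 / 7 * |(c : ℝ)| ^ (-(2 * σ)))) *
          ENNReal.ofReal (1 / ((d : ℝ) ^ 2 + (|(c : ℝ)| * y) ^ 2)) :=
        ENNReal.tsum_le_tsum fun d => F_ne hy' h0 h1 c d hc
    _ = ENNReal.ofReal ((16 * y ^ 2) * (10 / 7 * |(c : ℝ)| ^ (-(2 * σ)))) *
          ∑' d : ℤ, ENNReal.ofReal (1 / ((d : ℝ) ^ 2 + (|(c : ℝ)| * y) ^ 2)) :=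
        ENNReal.tsum_mul_left
    _ ≤ ENNReal.ofReal ((16 * y ^ 2) * (10 / 7 * |(c : ℝ)| ^ (-(2 * σ)))) *
          ENNReal.ofReal (40 / (|(c : ℝ)| * y)) := by
        gcongr
        exact tsum_quad hm
    _ ≤ ENNReal.ofReal (1200 * y ^ 2) * ENNReal.ofReal (|(c : ℝ)| ^ (-(1 + 2 * σ))) := by
        rw [← ENNReal.ofReal_mul (by positivity), ← ENNReal.ofReal_mul (by positivity)]
        apply ENNReal.ofReal_le_ofReal
        have e : |(c : ℝ)| ^ (-(1 + 2 * σ)) = |(c : ℝ)| ^ (-(2 * σ)) / |(c : ℝ)| := by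
          rw [show -(1 + 2 * σ) = -(2 * σ) - 1 by ring, Real.rpow_sub_one (by positivity)]
        rw [e]
        have hA : 0 < |(c : ℝ)| ^ (-(2 * σ)) := by positivity
        have h4 : 40 / (|(c : ℝ)| * y) ≤ 50 / |(c : ℝ)| := by
          rw [div_le_div_iff₀ (by positivity) (by positivity)]
          nlinarith
        calc (16 * y ^ 2) * (10 / 7 * |(c : ℝ)| ^ (-(2 * σ))) * (40 / (|(c : ℝ)| * y))
            ≤ (16 * y ^ 2) * (10 / 7 * |(c : ℝ)| ^ (-(2 * σ))) * (50 / |(c : ℝ)|) := by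
              gcongr
          _ = (8000 / 7) * (y ^ 2 * (|(c : ℝ)| ^ (-(2 * σ)) / |(c : ℝ)|)) := by ring
          _ ≤ 1200 * (y ^ 2 * (|(c : ℝ)| ^ (-(2 * σ)) / |(c : ℝ)|)) := by
              gcongr
              norm_num
          _ = 1200 * y ^ 2 * (|(c : ℝ)| ^ (-(2 * σ)) / |(c : ℝ)|) := by ring

theorem F_sum {y σ : ℝ} (hy : Real.sqrt 3 / 2 ≤ y) (h0 : 0 < σ) (h1 : σ ≤ 1) :
    ∑' p : ℤ × ℤ, F y σ p ≤ ENNReal.ofReal (7000 * y ^ 2 / σ) := by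
  have h3 : (1.7 : ℝ) ≤ Real.sqrt 3 := by
    apply Real.le_sqrt_of_sq_le
    norm_num
  have hy' : (0.85 : ℝ) ≤ y := by linarith
  rw [ENNReal.tsum_prod']
  let g : ℕ → ℝ≥0∞ := fun n => if n = 0 then ENNReal.ofReal (1280 * y ^ 2) else
    ENNReal.ofReal (1200 * y ^ 2) * ENNReal.ofReal ((n : ℝ) ^ (-(1 + 2 * σ)))
  have hg : ∀ c : ℤ, ∑' d : ℤ, F y σ (c, d) ≤ g c.natAbs := by
    intro c
    by_cases hc : c = 0
    · subst hc
      simpa [g] using F_zero_sum hy' h0 h1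
    · have h2 : c.natAbs ≠ 0 := by simpa using hc
      simp only [g, if_neg h2]
      have := F_ne_sum hy h0 h1 c hc
      rwa [Nat.cast_natAbs, Int.cast_abs]
  refine (tsum_int_le hg).trans ?_
  have hgs : ∑' n : ℕ, g n ≤ ENNReal.ofReal (1280 * y ^ 2) +
      ENNReal.ofReal (1200 * y ^ 2) * ENNReal.ofReal (1 + 1 / (2 * σ)) := by
    rw [tsum_eq_zero_add' ENNReal.summable]
    apply add_le_add
    · simp [g]
    · simp only [g, Nat.succ_ne_zero, if_false]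
      rw [ENNReal.tsum_mul_left]
      gcongr
      refine le_trans (le_of_eq ?_) (tsum_zeta (s := 2 * σ) (by linarith))
      congr 1
      funext i
      push_cast
      rfl
  calc 2 * ∑' n : ℕ, g n ≤ 2 * (ENNReal.ofReal (1280 * y ^ 2) +
      ENNReal.ofReal (1200 * y ^ 2) * ENNReal.ofReal (1 + 1 / (2 * σ))) := by gcongr
    _ = ENNReal.ofReal (2 * (1280 * y ^ 2 + 1200 * y ^ 2 * (1 + 1 / (2 * σ)))) := by
        rw [← ENNReal.ofReal_mul (by positivity), ← ENNReal.ofReal_add (by positivity) (by positivity),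
          show (2 : ℝ≥0∞) = ENNReal.ofReal 2 by simp, ← ENNReal.ofReal_mul (by norm_num)]
    _ ≤ ENNReal.ofReal (7000 * y ^ 2 / σ) := by
        apply ENNReal.ofReal_le_ofReal
        have h4 : 1 ≤ 1 / σ := by rw [le_div_iff₀ h0]; linarith
        have h5 : 1 + 1 / (2 * σ) ≤ 3 / 2 * (1 / σ) := by
          have : 1 / (2 * σ) = 1 / 2 * (1 / σ) := by field_simp
          rw [this]; linarith
        have h6 : 0 < y ^ 2 := by positivity
        have h7 : 1280 * y ^ 2 ≤ 1280 * y ^ 2 * (1 / σ) := le_mul_of_one_le_right (by positivity) h4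
        calc 2 * (1280 * y ^ 2 + 1200 * y ^ 2 * (1 + 1 / (2 * σ)))
            ≤ 2 * (1280 * y ^ 2 * (1 / σ) + 1200 * y ^ 2 * (3 / 2 * (1 / σ))) := by
              gcongr
          _ = 6160 * y ^ 2 * (1 / σ) := by ring
          _ ≤ 7000 * y ^ 2 * (1 / σ) := by gcongr; norm_num
          _ = 7000 * y ^ 2 / σ := by ring

theorem t_eisbd : W388.StEisBd := by
  refine ⟨7000, by norm_num, fun z hy hx _ σ h0 h1 => ?_⟩
  calc ∑' p : {p : ℤ × ℤ // IsCoprime p.1 p.2},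
      ENNReal.ofReal ((z.im / ‖(p.1.1 : ℂ) * (z : ℂ) + (p.1.2 : ℂ)‖ ^ 2) ^ (1 + σ))
      ≤ ∑' p : {p : ℤ × ℤ // IsCoprime p.1 p.2}, F z.im σ p.1 := by
        refine ENNReal.tsum_le_tsum fun p => ?_
        have hp : p.1.1 ≠ 0 ∨ p.1.2 ≠ 0 := by
          by_contra hcon
          push Not at hcon
          have h2 := p.2
          rw [hcon.1, hcon.2] at h2
          exact not_isCoprime_zero_zero h2
        unfold F
        rw [if_neg (by tauto)]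
        exact ENNReal.ofReal_le_ofReal (term_le z hy hx h0 p.1.1 p.1.2 hp)
    _ ≤ ∑' p : ℤ × ℤ, F z.im σ p :=
        ENNReal.tsum_comp_le_tsum_of_injective (f := fun p : {p : ℤ × ℤ // IsCoprime p.1 p.2} => p.1)
          Subtype.val_injective _
    _ ≤ ENNReal.ofReal (7000 * z.im ^ 2 / σ) := F_sum hy h0 h1

end Pool.Agent.W749.TW
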